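import Mathlib

/-!
# Concentrators with `5 L` inputs, `4 L` outputs and degree `15`

Every set of at most `3 L` inputs can be matched into the outputs. (The counting argument follows
`Pool.Agent.N49.KR.Conc`.)
-/

set_option autoImplicit false

namespace Pool.Agent.N486.AF

open Finset

theorem card_bad {T : Type} [Fintype T] [DecidableEq T] {P : ℕ} (E : Finset T)
    (F : Finset (Fin P)) :
    (Fintype.piFinset (fun x : T × Fin 15 => if x.1 ∈ E then F else Finset.univ)).card =
      F.card ^ (15 * E.card) * P ^ (15 * (Fintype.card T - E.card)) := by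
  classical
  rw [Fintype.card_piFinset]
  have h1 : ∀ x : T × Fin 15, (if x.1 ∈ E then F else (Finset.univ : Finset (Fin P))).card =
      if x.1 ∈ E then F.card else P := by
    intro x
    split_ifs
    · rfl
    · rw [Finset.card_univ, Fintype.card_fin]
  rw [Finset.prod_congr rfl fun x _ => h1 x, ← Finset.univ_product_univ, Finset.prod_product]
  have h2 : ∀ t : T, ∏ _i : Fin 15, (if t ∈ E then F.card else P) =
      if t ∈ E then F.card ^ 15 else P ^ 15 := by
    intro t
    rw [Finset.prod_const, Finset.card_univ, Fintype.card_fin]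
    split_ifs <;> rfl
  rw [Finset.prod_congr rfl fun t _ => h2 t, Finset.prod_ite, Finset.prod_const, Finset.prod_const,
    ← pow_mul, ← pow_mul]
  congr 3
  · rw [Finset.filter_mem_eq_inter, Finset.univ_inter]
  · rw [← Finset.card_univ, ← Finset.card_sdiff_of_subset (Finset.subset_univ E)]
    congr 1
    ext t
    simp

theorem geo_sum (m : ℕ) : ∑ k ∈ Finset.Icc 1 m, (1 / 4 : ℝ) ^ k = (1 - (1 / 4) ^ m) / 3 := by
  induction m with
  | zero => simp
  | succ m ih =>
    rw [Finset.sum_Icc_succ_top (by omega), ih]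
    ring

/-- The estimate of a term. -/
theorem term_le {L k : ℕ} (hL : 0 < L) (hk : k ≤ 3 * L) :
    ((5 * L).choose k : ℝ) * ((4 * L).choose k : ℝ) * ((k : ℝ) / (4 * L : ℕ)) ^ (15 * k) ≤
      (1 / 4) ^ k := by
  have hL' : (0 : ℝ) < L := by exact_mod_cast hL
  have hk' : (k : ℝ) ≤ 3 * L := by exact_mod_cast hk
  have h1 : ((5 * L).choose k : ℝ) ≤ (5 * (L : ℝ)) ^ k / k.factorial := by
    have := Nat.choose_le_pow_div (α := ℝ) k (5 * L)
    push_cast at this
    exact this
  have h2 : ((4 * L).choose k : ℝ) ≤ (4 * (L : ℝ)) ^ k / k.factorial := by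
    have := Nat.choose_le_pow_div (α := ℝ) k (4 * L)
    push_cast at this
    exact this
  have h3 : ((k : ℝ) ^ k / k.factorial) ≤ Real.exp k :=
    Real.pow_div_factorial_le_exp _ (Nat.cast_nonneg k) k
  have hf : (0 : ℝ) < k.factorial := by exact_mod_cast Nat.factorial_pos k
  have h4 : ((k : ℝ) ^ k / k.factorial) * ((k : ℝ) ^ k / k.factorial) ≤ 8 ^ k := by
    calc ((k : ℝ) ^ k / k.factorial) * ((k : ℝ) ^ k / k.factorial) ≤ Real.exp k * Real.exp k :=
          mul_le_mul h3 h3 (by positivity) (Real.exp_pos _).le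
      _ = (Real.exp 1 * Real.exp 1) ^ k := by
          rw [mul_pow, ← Real.exp_nat_mul, mul_one]
      _ ≤ 8 ^ k := by
          refine pow_le_pow_left₀ (by positivity) ?_ k
          have := Real.exp_one_lt_d9
          nlinarith [Real.exp_pos 1]
  have hx0 : (0 : ℝ) ≤ (k : ℝ) / (4 * L) := by positivity
  have hx : (k : ℝ) / (4 * L) ≤ 3 / 4 := by
    rw [div_le_div_iff₀ (by positivity) (by norm_num)]
    linarith
  have h5 : (5 / 4 : ℝ) * ((k : ℝ) / (4 * L)) ^ 13 ≤ 1 / 32 := by
    have := pow_le_pow_left₀ hx0 hx 13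
    have h6 : ((3 : ℝ) / 4) ^ 13 ≤ 1 / 40 := by norm_num
    linarith
  push_cast
  calc ((5 * L).choose k : ℝ) * ((4 * L).choose k : ℝ) * ((k : ℝ) / (4 * L)) ^ (15 * k)
      ≤ ((5 * (L : ℝ)) ^ k / k.factorial) * ((4 * (L : ℝ)) ^ k / k.factorial) *
          ((k : ℝ) / (4 * L)) ^ (15 * k) := by
        refine mul_le_mul_of_nonneg_right (mul_le_mul h1 h2 (by positivity) (by positivity))
          (by positivity)
    _ = (((k : ℝ) ^ k / k.factorial) * ((k : ℝ) ^ k / k.factorial)) *
          ((5 / 4 : ℝ) * ((k : ℝ) / (4 * L)) ^ 13) ^ k := by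
        have e1 : ((k : ℝ) / (4 * L)) ^ (15 * k) = ((k : ℝ) / (4 * L)) ^ k *
            ((k : ℝ) / (4 * L)) ^ k * (((k : ℝ) / (4 * L)) ^ 13) ^ k := by
          rw [← pow_add, ← pow_mul, ← pow_add]
          congr 1
          omega
        have e2 : (L : ℝ) ^ k ≠ 0 := by positivity
        rw [e1, mul_pow, mul_pow, mul_pow, div_pow (k : ℝ) (4 * (L : ℝ)) k, mul_pow, div_pow 5 4 k]
        field_simp
    _ ≤ 8 ^ k * (1 / 32) ^ k :=
        mul_le_mul h4 (pow_le_pow_left₀ (by positivity) h5 k) (by positivity) (by positivity)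
    _ = (1 / 4) ^ k := by
        rw [← mul_pow]
        norm_num

theorem conc_aux {L : ℕ} (hL : 0 < L) :
    ∃ f : Fin (5 * L) × Fin 15 → Fin (4 * L), ∀ E : Finset (Fin (5 * L)),
      E.card ≤ 3 * L →
      E.card ≤ (E.biUnion fun t => Finset.univ.image fun i => f (t, i)).card := by
  classical
  by_contra hcon
  push Not at hcon
  set P := 4 * L with hP
  have hP0 : 0 < P := by omega
  have hP' : (0 : ℝ) < P := by exact_mod_cast hP0
  let I : Finset ℕ := Finset.Icc 1 (3 * L)
  let Bd : Finset (Fin (5 * L)) → Finset (Fin P) → Finset (Fin (5 * L) × Fin 15 → Fin P) :=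
    fun E F => Fintype.piFinset (fun x : Fin (5 * L) × Fin 15 => if x.1 ∈ E then F else Finset.univ)
  have hcov : (Finset.univ : Finset (Fin (5 * L) × Fin 15 → Fin P)) ⊆
      I.biUnion fun k => (Finset.powersetCard k Finset.univ).biUnion fun E =>
        (Finset.powersetCard k Finset.univ).biUnion fun F => Bd E F := by
    intro f _
    obtain ⟨E, hE, hlt⟩ := hcon f
    have hE1 : 1 ≤ E.card := by omega
    obtain ⟨F, hF, hFc⟩ := Finset.exists_superset_card_eq
      (s := E.biUnion fun t => Finset.univ.image fun i => f (t, i)) hlt.le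
      (by rw [Fintype.card_fin]; omega)
    rw [Finset.mem_biUnion]
    refine ⟨E.card, Finset.mem_Icc.2 ⟨hE1, hE⟩, ?_⟩
    rw [Finset.mem_biUnion]
    refine ⟨E, Finset.mem_powersetCard_univ.2 rfl, ?_⟩
    rw [Finset.mem_biUnion]
    refine ⟨F, Finset.mem_powersetCard_univ.2 hFc, ?_⟩
    rw [Fintype.mem_piFinset]
    rintro ⟨t, i⟩
    split_ifs with h
    · apply hF
      rw [Finset.mem_biUnion]
      exact ⟨t, h, Finset.mem_image_of_mem _ (Finset.mem_univ i)⟩
    · exact Finset.mem_univ _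
  have h1 := Finset.card_le_card hcov
  rw [Finset.card_univ, Fintype.card_fun, Fintype.card_prod, Fintype.card_fin,
    Fintype.card_fin, Fintype.card_fin] at h1
  have h2 : (I.biUnion fun k => (Finset.powersetCard k (Finset.univ : Finset (Fin (5 * L)))).biUnion
      fun E => (Finset.powersetCard k Finset.univ).biUnion fun F => Bd E F).card ≤
      ∑ k ∈ I, (5 * L).choose k * (P.choose k * (k ^ (15 * k) * P ^ (15 * (5 * L - k)))) := by
    refine Finset.card_biUnion_le.trans (Finset.sum_le_sum fun k hk => ?_)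
    refine Finset.card_biUnion_le.trans ?_
    have h3 : ∀ E ∈ Finset.powersetCard k (Finset.univ : Finset (Fin (5 * L))),
        ((Finset.powersetCard k Finset.univ).biUnion fun F => Bd E F).card ≤
          P.choose k * (k ^ (15 * k) * P ^ (15 * (5 * L - k))) := by
      intro E hE
      refine Finset.card_biUnion_le.trans ?_
      have h4 : ∀ F ∈ Finset.powersetCard k (Finset.univ : Finset (Fin P)),
          (Bd E F).card ≤ k ^ (15 * k) * P ^ (15 * (5 * L - k)) := by
        intro F hF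
        rw [Finset.mem_powersetCard_univ] at hE hF
        simp only [Bd]
        rw [card_bad, hE, hF, Fintype.card_fin]
      refine (Finset.sum_le_card_nsmul _ _ _ h4).trans ?_
      rw [Finset.card_powersetCard, Finset.card_univ, Fintype.card_fin, smul_eq_mul]
    refine (Finset.sum_le_card_nsmul _ _ _ h3).trans ?_
    rw [Finset.card_powersetCard, Finset.card_univ, Fintype.card_fin, smul_eq_mul]
  have h5 : (P : ℝ) ^ (5 * L * 15) ≤
      ∑ k ∈ I, ((5 * L).choose k : ℝ) * ((P.choose k : ℝ) * ((k : ℝ) ^ (15 * k) *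
        (P : ℝ) ^ (15 * (5 * L - k)))) := by
    have := h1.trans h2
    exact_mod_cast this
  have h6 : ∀ k ∈ I, ((5 * L).choose k : ℝ) * ((P.choose k : ℝ) * ((k : ℝ) ^ (15 * k) *
        (P : ℝ) ^ (15 * (5 * L - k)))) ≤ (P : ℝ) ^ (5 * L * 15) * (1 / 4) ^ k := by
    intro k hk
    obtain ⟨hk1, hk2⟩ := Finset.mem_Icc.1 hk
    have hkN : k ≤ 5 * L := by omega
    have h7 := term_le hL hk2
    have h8 : (P : ℝ) ^ (5 * L * 15) = (P : ℝ) ^ (15 * k) * (P : ℝ) ^ (15 * (5 * L - k)) := by
      rw [← pow_add]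
      congr 1
      omega
    have h9 : ((5 * L).choose k : ℝ) * ((P.choose k : ℝ) * ((k : ℝ) ^ (15 * k) *
        (P : ℝ) ^ (15 * (5 * L - k)))) = (P : ℝ) ^ (5 * L * 15) *
        (((5 * L).choose k : ℝ) * (P.choose k : ℝ) * ((k : ℝ) / P) ^ (15 * k)) := by
      rw [h8, div_pow]
      field_simp
    rw [h9]
    exact mul_le_mul_of_nonneg_left h7 (by positivity)
  have h10 := h5.trans (Finset.sum_le_sum h6)
  rw [← Finset.mul_sum] at h10
  have h11 : ∑ k ∈ I, (1 / 4 : ℝ) ^ k ≤ 1 / 3 := by
    simp only [I]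
    rw [geo_sum]
    have : (0 : ℝ) ≤ (1 / 4) ^ (3 * L) := by positivity
    linarith
  have h12 : (0 : ℝ) < (P : ℝ) ^ (5 * L * 15) := by positivity
  nlinarith

/-- **Concentrators.** -/
theorem conc {L : ℕ} (hL : 0 < L) :
    ∃ R : Fin (5 * L) → Fin 15 → Fin (4 * L), ∀ E : Finset (Fin (5 * L)),
      E.card ≤ 3 * L → ∃ g : Fin (5 * L) → Fin 15,
        ∀ t ∈ E, ∀ t' ∈ E, R t (g t) = R t' (g t') → t = t' := by
  classical
  obtain ⟨f, hf⟩ := conc_aux hL
  refine ⟨fun t i => f (t, i), fun E hE => ?_⟩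
  have hall : ∀ s : Finset {t // t ∈ E},
      s.card ≤ (s.biUnion fun t => Finset.univ.image fun i => f (t.1, i)).card := by
    intro s
    have h1 := hf (s.map (Function.Embedding.subtype _)) (by
      rw [Finset.card_map]
      refine le_trans ?_ hE
      have := Finset.card_le_univ s
      rwa [Fintype.card_coe] at this)
    rw [Finset.card_map] at h1
    refine h1.trans (Finset.card_le_card ?_)
    intro x hx
    rw [Finset.mem_biUnion] at hx ⊢
    obtain ⟨t, ht, hx⟩ := hx
    obtain ⟨t', ht', rfl⟩ := Finset.mem_map.1 ht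
    exact ⟨t', ht', hx⟩
  obtain ⟨m, hm, hm'⟩ := (Finset.all_card_le_biUnion_card_iff_exists_injective _).1 hall
  have hm'' : ∀ t : {t // t ∈ E}, ∃ i, f (t.1, i) = m t := by
    intro t
    have h2 := hm' t
    rw [Finset.mem_image] at h2
    obtain ⟨i, -, hi⟩ := h2
    exact ⟨i, hi⟩
  choose g hg using hm''
  refine ⟨fun t => if h : t ∈ E then g ⟨t, h⟩ else 0, fun t ht t' ht' he => ?_⟩
  beta_reduce at he
  rw [dif_pos ht, dif_pos ht', hg ⟨t, ht⟩, hg ⟨t', ht'⟩] at he
  exact congrArg Subtype.val (hm he)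

end Pool.Agent.N486.AF
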