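import Pool.Agent.N486.AF.Conc

/-!
# Nearly additive set functions: the concentrator argument of Kalton and Roberts
-/

set_option autoImplicit false

namespace Pool.Agent.N486.AF

open Finset

variable {V : Type} [Fintype V] [DecidableEq V]

/-- Nearly additive set functions. -/
def Nearly (h : Finset V → ℝ) (M : ℝ) : Prop :=
  ∀ A B : Finset V, Disjoint A B → |h (A ∪ B) - h A - h B| ≤ M

lemma Nearly.empty {h : Finset V → ℝ} {M : ℝ} (hh : Nearly h M) : |h ∅| ≤ M := by
  have := hh ∅ ∅ (disjoint_empty_left _)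
  rw [empty_union, sub_self, zero_sub, abs_neg] at this
  exact this

lemma Nearly.nonneg {h : Finset V → ℝ} {M : ℝ} (hh : Nearly h M) : 0 ≤ M :=
  (abs_nonneg _).trans hh.empty

/-- A disjoint union of several sets. -/
lemma Nearly.union {h : Finset V → ℝ} {M : ℝ} (hh : Nearly h M) {ι : Type} [DecidableEq ι]
    (s : Finset ι) (C : ι → Finset V) (hC : ∀ i ∈ s, ∀ j ∈ s, i ≠ j → Disjoint (C i) (C j)) :
    |h (s.biUnion C) - ∑ i ∈ s, h (C i)| ≤ (s.card + 1) * M := by
  induction s using Finset.induction_on with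
  | empty => simpa using hh.empty
  | insert i s hi ih =>
    have h1 := ih fun j hj k hk => hC j (mem_insert_of_mem hj) k (mem_insert_of_mem hk)
    have h2 := hh (C i) (s.biUnion C) (by
      rw [disjoint_biUnion_right]
      intro j hj
      exact hC i (mem_insert_self i s) j (mem_insert_of_mem hj) fun e => hi (e ▸ hj))
    rw [biUnion_insert, sum_insert hi, card_insert_of_notMem hi]
    push_cast
    rw [abs_le] at h1 h2 ⊢
    constructor <;> nlinarith [h1.1, h1.2, h2.1, h2.2]

/-- The argument with the concentrator. -/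
theorem core_fin {h : Finset V → ℝ} {M N : ℝ} (hh : Nearly h M) (hN : ∀ A, h A ≤ N) {L : ℕ}
    (hL : 0 < L) (c : Fin (5 * L) → Finset V)
    (hc : ∀ x : V, (univ.filter fun t => x ∈ c t).card ≤ 3 * L)
    (hcN : ∀ t, N - M ≤ h (c t)) : N ≤ 164 * M := by
  classical
  obtain ⟨R, hR⟩ := conc hL
  choose g hg using fun x : V => hR (univ.filter fun t => x ∈ c t) (hc x)
  let C : Fin (5 * L) → Fin 15 → Finset V := fun t i => (c t).filter fun x => g x t = i
  have h1 : ∀ t, h (c t) ≤ ∑ i, h (C t i) + 16 * M := by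
    intro t
    have e : (univ : Finset (Fin 15)).biUnion (C t) = c t := by
      ext x
      simp only [C, mem_biUnion, mem_univ, true_and, mem_filter]
      exact ⟨fun ⟨_, h, _⟩ => h, fun h => ⟨g x t, h, rfl⟩⟩
    have := hh.union univ (C t) fun i _ j _ hij => by
      rw [disjoint_left]
      intro x hx hx'
      exact hij ((mem_filter.1 hx).2.symm.trans (mem_filter.1 hx').2)
    rw [e, card_univ, Fintype.card_fin, abs_le] at this
    have := this.2
    push_cast at this
    linarith
  have h2 : ∀ j : Fin (4 * L), ∑ x ∈ (univ : Finset (Fin (5 * L) × Fin 15)).filter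
      (fun x => R x.1 x.2 = j), h (C x.1 x.2) ≤ N +
        (((univ : Finset (Fin (5 * L) × Fin 15)).filter (fun x => R x.1 x.2 = j)).card + 1) * M := by
    intro j
    have := hh.union ((univ : Finset (Fin (5 * L) × Fin 15)).filter (fun x => R x.1 x.2 = j))
      (fun x => C x.1 x.2) (by
        rintro ⟨t, i⟩ hti ⟨t', i'⟩ hti' hne
        rw [disjoint_left]
        intro x hx hx'
        have a1 := mem_filter.1 hx
        have a2 := mem_filter.1 hx'
        have b1 := (mem_filter.1 hti).2
        have b2 := (mem_filter.1 hti').2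
        simp only at a1 a2 b1 b2
        have e : t = t' := hg x t (mem_filter.2 ⟨mem_univ _, a1.1⟩) t'
          (mem_filter.2 ⟨mem_univ _, a2.1⟩) (by rw [a1.2, a2.2, b1, b2])
        subst e
        exact hne (by rw [← a1.2, ← a2.2]))
    rw [abs_le] at this
    have h3 := hN (((univ : Finset (Fin (5 * L) × Fin 15)).filter (fun x => R x.1 x.2 = j)).biUnion
      fun x => C x.1 x.2)
    linarith [this.1]
  have h3 : ∑ j : Fin (4 * L), ∑ x ∈ (univ : Finset (Fin (5 * L) × Fin 15)).filter
      (fun x => R x.1 x.2 = j), h (C x.1 x.2) = ∑ x : Fin (5 * L) × Fin 15, h (C x.1 x.2) :=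
    sum_fiberwise_of_maps_to (fun x _ => mem_univ _) _
  have h4 : ∑ j : Fin (4 * L),
      (((univ : Finset (Fin (5 * L) × Fin 15)).filter (fun x => R x.1 x.2 = j)).card : ℝ) =
        5 * L * 15 := by
    have := card_eq_sum_card_fiberwise (s := (univ : Finset (Fin (5 * L) × Fin 15)))
      (t := (univ : Finset (Fin (4 * L)))) (f := fun x => R x.1 x.2) (fun x _ => mem_univ _)
    rw [card_univ, Fintype.card_prod, Fintype.card_fin, Fintype.card_fin] at this
    rw [← Nat.cast_sum, ← this]
    push_cast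
    ring
  have h5 := sum_le_sum fun j (_ : j ∈ (univ : Finset (Fin (4 * L)))) => h2 j
  rw [h3, sum_add_distrib, ← sum_mul, sum_add_distrib, h4] at h5
  simp only [sum_const, card_univ, Fintype.card_fin, nsmul_eq_mul, mul_one] at h5
  have h6 := sum_le_sum fun t (_ : t ∈ (univ : Finset (Fin (5 * L)))) => (hcN t).trans (h1 t)
  rw [sum_add_distrib, ← Fintype.sum_prod_type'] at h6
  simp only [sum_const, card_univ, Fintype.card_fin, nsmul_eq_mul] at h6
  push_cast at h5 h6
  have hL' : (0 : ℝ) < L := by exact_mod_cast hL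
  have h7 : (L : ℝ) * N ≤ L * (164 * M) := by nlinarith
  exact le_of_mul_le_mul_left h7 hL'

/-- Real weights. -/
theorem core {h : Finset V → ℝ} {M N : ℝ} (hh : Nearly h M) (hN : ∀ A, h A ≤ N) {ι : Type}
    [Fintype ι] (w : ι → ℝ) (hw : ∀ y, 0 ≤ w y) (hw1 : ∑ y, w y = 1) (c : ι → Finset V)
    (hc : ∀ x : V, ∑ y ∈ univ.filter (fun y => x ∈ c y), w y ≤ 1 / 2)
    (hcN : ∀ y, N - M ≤ h (c y)) : N ≤ 164 * M := by
  classical
  have hι : 0 < Fintype.card ι := by
    rw [Fintype.card_pos_iff]
    by_contra hcon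
    rw [not_nonempty_iff] at hcon
    rw [univ_eq_empty, sum_empty] at hw1
    exact zero_ne_one hw1
  set L := Fintype.card ι with hL
  let m : ι → ℕ := fun y => ⌊w y * (6 * L)⌋₊
  have hL' : (0 : ℝ) < L := by exact_mod_cast hι
  have hm1 : ∀ y, (m y : ℝ) ≤ w y * (6 * L) := fun y =>
    Nat.floor_le (mul_nonneg (hw y) (by positivity))
  have hm2 : ∀ y, w y * (6 * L) ≤ m y + 1 := fun y => (Nat.lt_floor_add_one _).le
  have htot : 5 * L ≤ ∑ y, m y := by
    have h1 := sum_le_sum fun y (_ : y ∈ (univ : Finset ι)) => hm2 y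
    rw [← sum_mul, hw1, sum_add_distrib, sum_const, card_univ, nsmul_eq_mul, mul_one, one_mul,
      ← hL] at h1
    have h2 : (5 * L : ℝ) ≤ ((∑ y, m y : ℕ) : ℝ) := by
      push_cast
      linarith
    exact_mod_cast h2
  have hcard : Fintype.card (Fin (5 * L)) ≤ Fintype.card (Σ y, Fin (m y)) := by
    rw [Fintype.card_fin, Fintype.card_sigma]
    simpa using htot
  obtain ⟨e⟩ := Function.Embedding.nonempty_of_card_le hcard
  refine core_fin hh hN hι (fun t => c (e t).1) (fun x => ?_) fun t => hcN _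
  have h1 : (univ.filter fun t => x ∈ c (e t).1).card ≤
      ∑ y ∈ univ.filter (fun y => x ∈ c y), m y := by
    calc (univ.filter fun t => x ∈ c (e t).1).card
        = ((univ.filter fun t => x ∈ c (e t).1).map e).card := (card_map _).symm
      _ ≤ ((univ.filter (fun y => x ∈ c y)).sigma fun y => (univ : Finset (Fin (m y)))).card := by
          refine card_le_card fun z hz => ?_
          obtain ⟨t, ht, rfl⟩ := mem_map.1 hz
          rw [mem_sigma]
          exact ⟨mem_filter.2 ⟨mem_univ _, (mem_filter.1 ht).2⟩, mem_univ _⟩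
      _ = ∑ y ∈ univ.filter (fun y => x ∈ c y), m y := by
          rw [card_sigma]
          simp
  have h2 : ((∑ y ∈ univ.filter (fun y => x ∈ c y), m y : ℕ) : ℝ) ≤ 3 * L := by
    push_cast
    calc ∑ y ∈ univ.filter (fun y => x ∈ c y), (m y : ℝ)
        ≤ ∑ y ∈ univ.filter (fun y => x ∈ c y), w y * (6 * L) := sum_le_sum fun y _ => hm1 y
      _ = (∑ y ∈ univ.filter (fun y => x ∈ c y), w y) * (6 * L) := by rw [sum_mul]
      _ ≤ 1 / 2 * (6 * L) := mul_le_mul_of_nonneg_right (hc x) (by positivity)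
      _ = 3 * L := by ring
  have h3 : ∑ y ∈ univ.filter (fun y => x ∈ c y), m y ≤ 3 * L := by exact_mod_cast h2
  exact h1.trans h3

end Pool.Agent.N486.AF
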