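import Pool.Agent.N486.AF.Gauge
import Pool.Agent.R647.AF.Fin

/-!
# The theorem for divisors and curves

(The passage from one moduli space to the strata follows `Pool.Agent.R647.AF.Fin`.)
-/

set_option autoImplicit false
set_option linter.unusedSectionVars false

namespace Pool.Agent.N486.AF

open Finset
open Pool.Agent.R647.AF (T Sym Bd kap kap_of kap_sym kap_single hat hat_map hat_sym cond cut cut_map
  deg deg_cut deg_add deg_kap log_nonneg)

variable {p q : ℕ}

/-- The theorem on a stratum. -/
theorem nef_stratum {c : Finset (Fin p) → ℝ} (hc : c ∅ = 0) {a b : ℝ} (hab : a ≤ b)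
    (h : ∀ A B C : Finset (Fin p), A.Nonempty → B.Nonempty → C.Nonempty → Disjoint A B →
      Disjoint A C → Disjoint B C → a ≤ T c A B C ∧ T c A B C ≤ b)
    (hq : 3 ≤ q) {B : Fin q → Finset (Fin p)} (hB : ∀ i, (B i).Nonempty)
    (hB' : ∀ i j, i ≠ j → Disjoint (B i) (B j)) {m : Finset (Fin q) → ℕ} {d : ℕ}
    (h1 : ∀ S : Finset (Fin q), S.card ≤ 1 → m S = 0) (h2 : m univ = 0)
    (hm : ∀ i j : Fin q, i ≠ j →
      ∑ S ∈ univ.filter (fun S : Finset (Fin q) => i ∈ S ∧ j ∈ S), m S = d) :
    (a - 2472 * (b - a)) *
      (∑ S : Finset (Fin q), (m S : ℝ) * ((S.card : ℝ) - 1) - d * ((q : ℝ) - 1)) ≤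
    ∑ S ∈ univ.filter (fun S : Finset (Fin q) => 2 ≤ S.card ∧ S.card < q),
        c (S.biUnion B) * m S -
      ∑ i, c (B i) * (∑ S ∈ univ.filter (fun S : Finset (Fin q) => i ∈ S), (m S : ℝ) - d) -
      c (univ.biUnion B) * d := by
  have hcard : Fintype.card (Option (Fin q)) = q + 1 := by
    rw [Fintype.card_option, Fintype.card_fin]
  obtain ⟨G, hGc, u1, u2, u3, u4⟩ := uu_lower (hat_sym hc B) none hab (by rw [hcard]; omega)
    (cond h hB hB')
  have hqp : q ≤ p := by
    have e1 : ∑ i : Fin q, (B i).card ≤ p := by
      rw [← card_biUnion fun i _ j _ hij => hB' i j hij]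
      have := card_le_univ (univ.biUnion B)
      rwa [Fintype.card_fin] at this
    have e2 : ∑ _i : Fin q, 1 ≤ ∑ i : Fin q, (B i).card :=
      sum_le_sum fun i _ => card_pos.2 (hB i)
    rw [sum_const, card_univ, Fintype.card_fin, smul_eq_mul, mul_one] at e2
    omega
  -- the degree
  have hdeg : ∑ S ∈ univ.filter (fun S : Finset (Fin q) => 2 ≤ S.card ∧ S.card < q),
        c (S.biUnion B) * m S -
      ∑ i, c (B i) * (∑ S ∈ univ.filter (fun S : Finset (Fin q) => i ∈ S), (m S : ℝ) - d) -
      c (univ.biUnion B) * d = deg (hat c B) m d := by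
    unfold deg
    congr 1
    · congr 1
      · rw [sum_filter]
        refine sum_congr rfl fun S _ => ?_
        rw [hat_map]
        split_ifs with hS
        · ring
        · have : m S = 0 := by
            by_cases hS1 : S.card ≤ 1
            · exact h1 S hS1
            · have hS2 : S = univ := by
                rw [← card_eq_iff_eq_univ, Fintype.card_fin]
                have := card_le_univ S
                rw [Fintype.card_fin] at this
                omega
              rw [hS2, h2]
          rw [this]; simp
      · refine sum_congr rfl fun i _ => ?_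
        have e : ({some i} : Finset (Option (Fin q))) =
            ({i} : Finset (Fin q)).map Function.Embedding.some := by simp
        rw [e, hat_map, singleton_biUnion]
    · rw [hat_map]
  have huu : deg (hat c B) m d = deg (uu (hat c B) G) m d := by
    have e : uu (hat c B) G = fun X => hat c B X + cut G X := rfl
    rw [e, deg_add, deg_cut hm, add_zero]
  have huu2 : deg (uu (hat c B) G) m d =
      ∑ S : Finset (Fin q), (m S : ℝ) * uu (hat c B) G (S.map Function.Embedding.some) := by
    unfold deg
    have e1 : ∀ i : Fin q, uu (hat c B) G {some i} *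
        (∑ S ∈ univ.filter (fun S : Finset (Fin q) => i ∈ S), (m S : ℝ) - d) = 0 := by
      intro i
      rw [u3, zero_mul]
    have e2 : (univ : Finset (Fin q)).map Function.Embedding.some = ({none} : Finset _)ᶜ := by
      ext x
      cases x <;> simp
    rw [sum_congr rfl fun i _ => e1 i, e2, u4, u3, zero_mul, sum_const_zero]
    ring
  rw [hdeg, huu, huu2]
  have hlog := deg_kap (m := m) (d := d) (by omega) h1 hm
  have hlog0 := log_nonneg (m := m) (d := d) (by omega) h1 hm
  calc (a - 2472 * (b - a)) *
      (∑ S : Finset (Fin q), (m S : ℝ) * ((S.card : ℝ) - 1) - d * ((q : ℝ) - 1))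
      = ∑ S : Finset (Fin q), (m S : ℝ) * ((a - 2472 * (b - a)) *
          kap (S.map Function.Embedding.some)) := by
        rw [← hlog, mul_sum]
        exact sum_congr rfl fun S _ => by ring
    _ ≤ _ := by
        refine sum_le_sum fun S _ => mul_le_mul_of_nonneg_left ?_ (Nat.cast_nonneg _)
        exact u1 (S.map Function.Embedding.some)

/-- The effective representative. -/
theorem eff {c : Finset (Fin p) → ℝ} (hc : ∀ S : Finset (Fin p), S.card ≤ 1 → c S = 0)
    {a b : ℝ} (hab : a ≤ b) (hp : 3 ≤ p)
    (h : ∀ A B C : Finset (Fin p), A.Nonempty → B.Nonempty → C.Nonempty → Disjoint A B →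
      Disjoint A C → Disjoint B C → a ≤ T c A B C ∧ T c A B C ≤ b) :
    ∃ u : Finset (Fin p) → ℝ, (∀ S : Finset (Fin p), S.card ≤ 1 → u S = 0) ∧ u univ = 0 ∧
      (∀ S : Finset (Fin p), 2 ≤ S.card → S.card < p →
        (a - 2472 * (b - a)) *
          (((S.card : ℝ) - 1) * ((p : ℝ) - S.card) / p) ≤ u S) ∧
      ∃ e : Fin p → Fin p → ℝ, ∀ S : Finset (Fin p),
        c S - u S = ∑ y ∈ S, ∑ x ∈ S.filter (fun x : Fin p => x < y), e x y := by
  set B : Fin p → Finset (Fin p) := fun i => {i} with hBdef
  have hB : ∀ i, (B i).Nonempty := fun i => singleton_nonempty i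
  have hB' : ∀ i j, i ≠ j → Disjoint (B i) (B j) := fun i j hij => by
    rw [hBdef]
    exact disjoint_singleton.2 hij
  have hbi : ∀ S : Finset (Fin p), S.biUnion B = S := fun S => by
    rw [hBdef]
    exact biUnion_singleton_eq_self
  have hcard : Fintype.card (Option (Fin p)) = p + 1 := by
    rw [Fintype.card_option, Fintype.card_fin]
  obtain ⟨G, hGc, u1, u2, u3, u4⟩ := uu_lower (hat_sym (hc ∅ (by simp)) B) none hab
    (by rw [hcard]; omega) (cond h hB hB')
  have hp' : (p : ℝ) ≠ 0 := by
    have : (1 : ℝ) ≤ p := by exact_mod_cast (show 1 ≤ p by omega)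
    linarith
  have hsingle : ∀ i : Fin p, ({some i} : Finset (Option (Fin p))) =
      ({i} : Finset (Fin p)).map Function.Embedding.some := fun i => by simp
  refine ⟨fun S => uu (hat c B) G (S.map Function.Embedding.some), ?_, ?_, ?_,
    fun x y => 2 * G (some x) (some y), ?_⟩
  · intro S hS
    show uu (hat c B) G (S.map Function.Embedding.some) = 0
    rcases Nat.lt_or_ge S.card 1 with h1 | h1
    · have : S = ∅ := card_eq_zero.1 (by omega)
      rw [this, map_empty, u2]
    · obtain ⟨i, hi⟩ := card_eq_one.1 (show S.card = 1 by omega)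
      rw [hi, ← hsingle, u3]
  · have e2 : (univ : Finset (Fin p)).map Function.Embedding.some = ({none} : Finset _)ᶜ := by
      ext x
      cases x <;> simp
    show uu (hat c B) G ((univ : Finset (Fin p)).map Function.Embedding.some) = 0
    rw [e2, u4, u3]
  · intro S h2 h3
    have := u1 (S.map Function.Embedding.some)
    have hne : (S.map Function.Embedding.some).Nonempty := by
      rw [map_nonempty]
      exact card_pos.1 (by omega)
    have hnu : S.map Function.Embedding.some ≠ univ := by
      intro h
      have : (none : Option (Fin p)) ∈ S.map Function.Embedding.some := by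
        rw [h]; exact mem_univ _
      simp at this
    rw [kap_of hne hnu, card_map, hcard] at this
    push_cast at this
    rw [add_sub_cancel_right] at this
    have e : (S.card : ℝ) * ((p : ℝ) + 1 - S.card) / p - 1 =
        ((S.card : ℝ) - 1) * ((p : ℝ) - S.card) / p := by
      field_simp
      ring
    rw [e] at this
    exact this
  · intro S
    show c S - uu (hat c B) G (S.map Function.Embedding.some) =
      ∑ y ∈ S, ∑ x ∈ S.filter (fun x : Fin p => x < y),
        2 * G (some x) (some y)
    have e1 : uu (hat c B) G (S.map Function.Embedding.some) =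
        hat c B (S.map Function.Embedding.some) +
        cut G (S.map Function.Embedding.some) := rfl
    have e2 : ∀ i : Fin p, cut G {some i} = 0 := by
      intro i
      have h1 : uu (hat c B) G {some i} = hat c B {some i} +
        cut G {some i} := rfl
      rw [u3, hsingle, hat_map, hbi, hc {i} (by simp), zero_add] at h1
      rw [hsingle]
      exact h1.symm
    rw [e1, cut_map, sum_congr rfl fun i _ => e2 i, sum_const_zero, hat_map, hbi]
    have e3 : ∑ i ∈ S, ∑ j ∈ S.erase i,
        G (some i) (some j) =
        ∑ y ∈ S, ∑ x ∈ S.filter (fun x : Fin p => x < y),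
          2 * G (some x) (some y) := by
      set w : Fin p → Fin p → ℝ := fun x y =>
        G (some x) (some y) with hw
      have hwc : ∀ x y, w x y = w y x := fun x y => hGc _ _
      have k1 : ∀ i ∈ S, ∑ j ∈ S.erase i, w i j =
          ∑ j ∈ S.filter (fun j => j < i), w i j + ∑ j ∈ S.filter (fun j => i < j), w i j := by
        intro i _
        rw [← sum_union]
        · refine sum_congr ?_ fun _ _ => rfl
          ext j
          simp only [mem_erase, mem_union, mem_filter]
          constructor
          · rintro ⟨h1, h2⟩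
            rcases lt_or_gt_of_ne h1 with h3 | h3
            · exact Or.inl ⟨h2, h3⟩
            · exact Or.inr ⟨h2, h3⟩
          · rintro (⟨h1, h2⟩ | ⟨h1, h2⟩)
            · exact ⟨ne_of_lt h2, h1⟩
            · exact ⟨ne_of_gt h2, h1⟩
        · rw [disjoint_left]
          intro j hj hj'
          exact lt_asymm (mem_filter.1 hj).2 (mem_filter.1 hj').2
      have k2 : ∑ i ∈ S, ∑ j ∈ S.filter (fun j => i < j), w i j =
          ∑ y ∈ S, ∑ x ∈ S.filter (fun x => x < y), w x y := by
        simp only [sum_filter]
        rw [sum_comm]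
      show ∑ i ∈ S, ∑ j ∈ S.erase i, w i j = ∑ y ∈ S, ∑ x ∈ S.filter (fun x => x < y), 2 * w x y
      rw [sum_congr rfl k1, sum_add_distrib, k2, ← sum_add_distrib]
      refine sum_congr rfl fun y _ => ?_
      rw [← sum_add_distrib]
      refine sum_congr rfl fun x _ => ?_
      rw [hwc y x]
      ring
    rw [e3]
    ring

end Pool.Agent.N486.AF
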