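import Pool.Agent.N486.AF.KR
import Pool.Agent.R647.AF.Link

/-!
# The gauge given by the additive functions of Kalton and Roberts
-/

set_option autoImplicit false
set_option linter.unusedSectionVars false

namespace Pool.Agent.N486.AF

open Finset
open Pool.Agent.R647.AF (T Sym Bd kap kap_of kap_sym kap_single chain sym_sub bd_of)

variable {V : Type} [Fintype V] [DecidableEq V]

lemma bd_nonneg {c : Finset V → ℝ} (hc : Sym c) {M : ℝ} (hM : Bd c M) : 0 ≤ M := by
  have := hM ∅ ∅ ∅ (disjoint_empty_left _) (disjoint_empty_left _) (disjoint_empty_left _)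
  exact this.1.trans this.2

/-- The fibre of the forgetful map degenerates to F-curves: upper bound. -/
lemma chain_upper {c : Finset V → ℝ} (hc : Sym c) {M : ℝ} (hM : Bd c M) (S : Finset V) :
    ∀ A ⊆ S, ∑ j ∈ A, c (S.erase j) - ((A.card : ℝ) - 1) * c S ≤
      c (S \ A) - c A + ∑ j ∈ A, c {j} + M * A.card := by
  intro A
  induction A using Finset.induction_on with
  | empty =>
    intro _
    simp [hc.1]
  | insert x A hx ih =>
    intro hA
    have hxS : x ∈ S := hA (mem_insert_self x A)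
    have hAS : A ⊆ S := fun y hy => hA (mem_insert_of_mem hy)
    have h1 := ih hAS
    have h2 := (hM A {x} (S \ insert x A) (disjoint_singleton_right.2 hx)
      (disjoint_left.2 fun y hy hy' => (mem_sdiff.1 hy').2 (mem_insert_of_mem hy))
      (disjoint_singleton_left.2 fun h => (mem_sdiff.1 h).2 (mem_insert_self x A))).2
    unfold T at h2
    have e1 : A ∪ {x} = insert x A := by rw [union_comm, ← insert_eq]
    have e2 : A ∪ S \ insert x A = S.erase x := by
      ext y
      simp only [mem_union, mem_sdiff, mem_insert, mem_erase, not_or]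
      constructor
      · rintro (h | h)
        · exact ⟨fun e => hx (e ▸ h), hAS h⟩
        · exact ⟨h.2.1, h.1⟩
      · rintro ⟨h, h'⟩
        by_cases hy : y ∈ A
        · exact Or.inl hy
        · exact Or.inr ⟨h', h, hy⟩
    have e3 : {x} ∪ S \ insert x A = S \ A := by
      ext y
      simp only [mem_union, mem_singleton, mem_sdiff, mem_insert, not_or]
      constructor
      · rintro (h | h)
        · rw [h]; exact ⟨hxS, hx⟩
        · exact ⟨h.1, h.2.2⟩
      · rintro ⟨h, h'⟩
        by_cases hy : y = x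
        · exact Or.inl hy
        · exact Or.inr ⟨h, hy, h'⟩
    have e4 : insert x A ∪ S \ insert x A = S := union_sdiff_of_subset hA
    rw [e1, e2, e3, e4] at h2
    rw [sum_insert hx, sum_insert hx, card_insert_of_notMem hx]
    push_cast
    linarith

/-- The sum of the increments at the elements of `S`. -/
lemma incr_le {c : Finset V → ℝ} (hc : Sym c) {M : ℝ} (hM : Bd c M) (S : Finset V) :
    ∑ j ∈ S, (c S - c (S.erase j) - c {j}) ≤ 2 * (c S - ∑ j ∈ S, c {j}) := by
  have h := chain hc hM S S (Subset.refl S)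
  rw [sdiff_self, bot_eq_empty, hc.1] at h
  rw [sum_sub_distrib, sum_sub_distrib, sum_const, nsmul_eq_mul]
  linarith

lemma le_incr {c : Finset V → ℝ} (hc : Sym c) {M : ℝ} (hM : Bd c M) (S : Finset V) :
    2 * (c S - ∑ j ∈ S, c {j}) - M * S.card ≤ ∑ j ∈ S, (c S - c (S.erase j) - c {j}) := by
  have h := chain_upper hc hM S S (Subset.refl S)
  rw [sdiff_self, bot_eq_empty, hc.1] at h
  rw [sum_sub_distrib, sum_sub_distrib, sum_const, nsmul_eq_mul]
  linarith

/-- The increments at `j` are nearly additive. -/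
lemma nearly {c : Finset V → ℝ} (hc : Sym c) {M : ℝ} (hM : Bd c M) (j : V) :
    Nearly (fun A => c (insert j A) - c (A.erase j) - c {j}) M := by
  intro A B hAB
  have h := hM (A.erase j) (B.erase j) {j}
    (hAB.mono (erase_subset j A) (erase_subset j B))
    (disjoint_singleton_right.2 (notMem_erase j A))
    (disjoint_singleton_right.2 (notMem_erase j B))
  have e1 : A.erase j ∪ B.erase j = (A ∪ B).erase j := (erase_union_distrib A B j).symm
  have e2 : ∀ X : Finset V, X.erase j ∪ {j} = insert j X := by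
    intro X
    ext y
    simp only [mem_union, mem_erase, mem_singleton, mem_insert]
    by_cases hy : y = j <;> simp [hy]
  unfold T at h
  rw [e1, e2, e2, e2] at h
  simp only
  rw [abs_le]
  constructor <;> linarith [h.1, h.2]

lemma swap_pairs (S : Finset V) (μ : V → V → ℝ) :
    ∑ i ∈ S, ∑ j ∈ S.erase i, μ j i = ∑ i ∈ S, ∑ j ∈ S.erase i, μ i j := by
  have e : ∀ ν : V → V → ℝ, ∑ i ∈ S, ∑ j ∈ S.erase i, ν i j =
      ∑ i ∈ S, ∑ j ∈ S, if j = i then 0 else ν i j := by
    intro ν
    refine sum_congr rfl fun i _ => ?_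
    rw [← filter_ne' S i, sum_filter]
    exact sum_congr rfl fun j _ => by by_cases h : j = i <;> simp [h]
  rw [e, e μ, sum_comm]
  refine sum_congr rfl fun i _ => sum_congr rfl fun j _ => ?_
  by_cases h : i = j
  · simp [h]
  · rw [if_neg h, if_neg (Ne.symm h)]

lemma swap_row (S : Finset V) (μ : V → V → ℝ) :
    ∑ i ∈ S, ∑ j ∈ univ.erase i, μ j i = ∑ j, ∑ i ∈ S.erase j, μ j i := by
  have e1 : ∑ i ∈ S, ∑ j ∈ univ.erase i, μ j i = ∑ i ∈ S, ∑ j, if j = i then 0 else μ j i := by
    refine sum_congr rfl fun i _ => ?_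
    rw [← filter_ne' univ i, sum_filter]
    exact sum_congr rfl fun j _ => by by_cases h : j = i <;> simp [h]
  have e2 : ∑ j, ∑ i ∈ S.erase j, μ j i = ∑ j, ∑ i ∈ S, if i = j then 0 else μ j i := by
    refine sum_congr rfl fun j _ => ?_
    rw [← filter_ne' S j, sum_filter]
    exact sum_congr rfl fun i _ => by by_cases h : i = j <;> simp [h]
  rw [e1, e2, sum_comm]
  refine sum_congr rfl fun j _ => sum_congr rfl fun i _ => ?_
  by_cases h : i = j
  · simp [h]
  · rw [if_neg h, if_neg (Ne.symm h)]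

lemma pair_const (S : Finset V) (x : V → ℝ) :
    ∑ i ∈ S, ∑ j ∈ S.erase i, (x i + x j) = 2 * ((S.card : ℝ) - 1) * ∑ i ∈ S, x i := by
  have e1 : ∑ i ∈ S, ∑ _j ∈ S.erase i, x i = ((S.card : ℝ) - 1) * ∑ i ∈ S, x i := by
    rw [mul_sum]
    refine sum_congr rfl fun i hi => ?_
    rw [sum_const, nsmul_eq_mul, card_erase_of_mem hi, Nat.cast_sub (card_pos.2 ⟨i, hi⟩),
      Nat.cast_one]
  have e2 : ∑ i ∈ S, ∑ j ∈ S.erase i, x j = ((S.card : ℝ) - 1) * ∑ i ∈ S, x i := by
    rw [swap_pairs S (fun i _ => x i), e1]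
  simp only [sum_add_distrib]
  rw [e1, e2]
  ring

/-- **The gauge.** -/
theorem gauge {c : Finset V → ℝ} (hc : Sym c) {M : ℝ} (hM : Bd c M)
    (hV : 4 ≤ Fintype.card V) : ∃ G : V → V → ℝ, (∀ i j, G i j = G j i) ∧
      (∀ i, c {i} + ∑ j ∈ univ.erase i, G i j = 0) ∧
      ∀ S : Finset V, 1 ≤ S.card →
        -((82 * S.card + 660 * (S.card - 1)) * M) ≤ c S + ∑ i ∈ S, ∑ j ∈ Sᶜ, G i j := by
  have hM0 := bd_nonneg hc hM
  choose μ hμ using fun j => kalton_roberts (nearly hc hM j)
  set n : ℝ := (Fintype.card V : ℝ) with hn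
  have hn4 : (4 : ℝ) ≤ n := by rw [hn]; exact_mod_cast hV
  have hn2 : n - 2 ≠ 0 := by linarith
  have hn1 : n - 1 ≠ 0 := by linarith
  -- the two estimates
  have hin : ∀ (S : Finset V) (j : V), j ∈ S →
      |(c S - c (S.erase j) - c {j}) - ∑ i ∈ S.erase j, μ j i| ≤ 164 * M := by
    intro S j hj
    have := hμ j (S.erase j)
    rwa [insert_erase hj, erase_idem] at this
  have hout : ∀ (S : Finset V) (j : V), j ∉ S →
      |(c (insert j S) - c S - c {j}) - ∑ i ∈ S.erase j, μ j i| ≤ 164 * M := by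
    intro S j hj
    have := hμ j S
    rwa [erase_eq_of_notMem hj] at this ⊢
  let E : V → V → ℝ := fun i j => (μ i j + μ j i) / 2
  let ρ : V → ℝ := fun i => ∑ j ∈ univ.erase i, E i j + 2 * c {i}
  have hρ : ∀ S : Finset V, |∑ i ∈ S, ρ i| ≤ 165 * M * n := by
    intro S
    have hs : (S.card : ℝ) ≤ n := by
      rw [hn]
      exact_mod_cast card_le_univ S
    have hs0 : (0 : ℝ) ≤ S.card := Nat.cast_nonneg _
    have e0 : ∑ i ∈ S, ρ i = (∑ i ∈ S, ∑ j ∈ univ.erase i, μ i j) / 2 +
        (∑ j, ∑ i ∈ S.erase j, μ j i) / 2 + 2 * ∑ i ∈ S, c {i} := by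
      rw [← swap_row S μ]
      simp only [ρ, E, sum_add_distrib, ← sum_div, ← mul_sum]
      ring
    have h1 : |(∑ i ∈ S, ∑ j ∈ univ.erase i, μ i j) + 2 * ∑ i ∈ S, c {i}| ≤ 164 * M * S.card := by
      rw [mul_sum, ← sum_add_distrib]
      refine (abs_sum_le_sum_abs _ _).trans ((sum_le_card_nsmul _ _ (164 * M) fun i _ => ?_).trans
        (by rw [nsmul_eq_mul, mul_comm]))
      have h2 := hin univ i (mem_univ i)
      have h3 : c univ = 0 := by rw [← compl_empty, hc.2, hc.1]
      have h4 : c (univ.erase i) = c {i} := by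
        rw [← hc.2 {i}]
        congr 1
        ext x
        simp
      rw [h3, h4] at h2
      rw [← abs_neg]
      have h5 : -(∑ j ∈ univ.erase i, μ i j + 2 * c {i}) =
          0 - c {i} - c {i} - ∑ j ∈ univ.erase i, μ i j := by ring
      rw [h5]
      exact h2
    have h2 : |∑ j, ∑ i ∈ S.erase j, μ j i + 2 * ∑ j ∈ S, c {j}| ≤ 164 * M * n + M * n := by
      have k1 := incr_le hc hM S
      have k2 := le_incr hc hM S
      have k3 := incr_le hc hM Sᶜ
      have k4 := le_incr hc hM Sᶜ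
      have k5 : ∑ j ∈ Sᶜ, (c Sᶜ - c (Sᶜ.erase j) - c {j}) =
          -∑ j ∈ Sᶜ, (c (insert j S) - c S - c {j}) - 2 * ∑ j ∈ Sᶜ, c {j} := by
        rw [mul_sum, ← sum_neg_distrib, ← sum_sub_distrib]
        refine sum_congr rfl fun j hj => ?_
        have k6 : Sᶜ.erase j = (insert j S)ᶜ := by
          rw [compl_insert]
        rw [k6, hc.2, hc.2]
        ring
      rw [k5] at k3 k4
      rw [hc.2] at k3 k4
      have k7 : (Sᶜ.card : ℝ) = n - S.card := by
        rw [card_compl, Nat.cast_sub (card_le_univ S)]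
      rw [k7] at k4
      have k8 : |∑ j ∈ S, (c S - c (S.erase j) - c {j}) - ∑ j ∈ S, ∑ i ∈ S.erase j, μ j i| ≤
          164 * M * S.card := by
        rw [← sum_sub_distrib]
        refine (abs_sum_le_sum_abs _ _).trans ((sum_le_card_nsmul _ _ (164 * M)
          fun i hi => hin S i hi).trans (by rw [nsmul_eq_mul, mul_comm]))
      have k9 : |∑ j ∈ Sᶜ, (c (insert j S) - c S - c {j}) -
          ∑ j ∈ Sᶜ, ∑ i ∈ S.erase j, μ j i| ≤ 164 * M * (n - S.card) := by
        rw [← sum_sub_distrib, ← k7]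
        refine (abs_sum_le_sum_abs _ _).trans ((sum_le_card_nsmul _ _ (164 * M)
          fun i hi => hout S i (mem_compl.1 hi)).trans (by rw [nsmul_eq_mul, mul_comm]))
      rw [← sum_add_sum_compl S (fun j => ∑ i ∈ S.erase j, μ j i)]
      rw [abs_le] at k8 k9 ⊢
      constructor <;> nlinarith [k8.1, k8.2, k9.1, k9.2, mul_nonneg hM0 hs0,
        mul_nonneg hM0 (sub_nonneg.2 hs)]
    rw [e0]
    rw [abs_le] at h1 h2 ⊢
    have h3 : M * S.card ≤ M * n := mul_le_mul_of_nonneg_left hs hM0
    have h4 : 0 ≤ M * n := by positivity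
    constructor <;> linarith [h1.1, h1.2, h2.1, h2.2]
  set X : ℝ := (∑ i, ρ i) / (2 * (n - 1)) with hX
  let x : V → ℝ := fun i => (ρ i - X) / (n - 2)
  have hxS : ∀ S : Finset V, ∑ i ∈ S, x i = (∑ i ∈ S, ρ i - S.card * X) / (n - 2) := by
    intro S
    simp only [x]
    rw [← sum_div, sum_sub_distrib, sum_const, nsmul_eq_mul]
  have hxX : ∑ i, x i = X := by
    rw [hxS, card_univ, ← hn, hX]
    field_simp
    ring
  have hXb : |X| ≤ 165 * M * n / (2 * (n - 1)) := by
    rw [hX, abs_div, abs_of_pos (show (0 : ℝ) < 2 * (n - 1) by linarith)]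
    exact div_le_div_of_nonneg_right (hρ univ) (by linarith)
  have hXb' : |X| ≤ 165 * M := by
    refine hXb.trans ?_
    rw [div_le_iff₀ (by linarith)]
    nlinarith
  have hxlow : ∀ S : Finset V, -(660 * M) ≤ ∑ i ∈ S, x i := by
    intro S
    rw [hxS, le_div_iff₀ (by linarith)]
    have hs : (S.card : ℝ) ≤ n := by
      rw [hn]
      exact_mod_cast card_le_univ S
    have hs0 : (0 : ℝ) ≤ S.card := Nat.cast_nonneg _
    have h1 := abs_le.1 (hρ S)
    have h2 : (S.card : ℝ) * X ≤ n * (165 * M) := by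
      calc (S.card : ℝ) * X ≤ S.card * |X| := mul_le_mul_of_nonneg_left (le_abs_self X) hs0
        _ ≤ n * (165 * M) := mul_le_mul hs hXb' (abs_nonneg _) (by linarith)
    nlinarith [h1.1]
  let G : V → V → ℝ := fun i j => (E i j - x i - x j) / 2
  have hGc : ∀ i j, G i j = G j i := fun i j => by simp only [G, E]; ring
  have hrow : ∀ i, c {i} + ∑ j ∈ univ.erase i, G i j = 0 := by
    intro i
    have h1 : ∑ j ∈ univ.erase i, G i j =
        (∑ j ∈ univ.erase i, E i j - (n - 1) * x i - (X - x i)) / 2 := by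
      simp only [G]
      rw [← sum_div, sum_sub_distrib, sum_sub_distrib, sum_const, nsmul_eq_mul,
        card_erase_of_mem (mem_univ i), card_univ, Nat.cast_sub (by omega), Nat.cast_one, ← hn]
      have h2 := add_sum_erase univ x (mem_univ i)
      rw [hxX] at h2
      rw [← h2]
      ring
    have h2 : ∑ j ∈ univ.erase i, E i j = ρ i - 2 * c {i} := by
      simp only [ρ]; ring
    have h3 : (n - 2) * x i = ρ i - X := by
      simp only [x]
      field_simp
    rw [h1, h2]
    linarith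
  refine ⟨G, hGc, hrow, fun S hS => ?_⟩
  have hsplit : ∀ i ∈ S, ∑ j ∈ Sᶜ, G i j = -c {i} - ∑ j ∈ S.erase i, G i j := by
    intro i hi
    have h1 := hrow i
    have e : (univ : Finset V).erase i = Sᶜ ∪ S.erase i := by
      ext y
      simp only [mem_erase, mem_univ, and_true, mem_union, mem_compl]
      constructor
      · intro h
        by_cases hy : y ∈ S
        · exact Or.inr ⟨h, hy⟩
        · exact Or.inl hy
      · rintro (h | h)
        · exact fun e => h (e ▸ hi)
        · exact h.1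
    rw [e, sum_union] at h1
    · linarith
    · rw [disjoint_left]
      intro y hy hy'
      exact (mem_compl.1 hy) (mem_of_mem_erase hy')
  have hsum : ∑ i ∈ S, ∑ j ∈ S.erase i, G i j = (∑ i ∈ S, ∑ j ∈ S.erase i, μ i j) / 2 -
      ((S.card : ℝ) - 1) * ∑ i ∈ S, x i := by
    have e1 : ∑ i ∈ S, ∑ j ∈ S.erase i, G i j = (∑ i ∈ S, ∑ j ∈ S.erase i, μ i j) / 4 +
        (∑ i ∈ S, ∑ j ∈ S.erase i, μ j i) / 4 - (∑ i ∈ S, ∑ j ∈ S.erase i, (x i + x j)) / 2 := by
      simp only [G, E, sum_div, ← sum_add_distrib, ← sum_sub_distrib]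
      refine sum_congr rfl fun i _ => sum_congr rfl fun j _ => ?_
      ring
    rw [e1, swap_pairs S μ, pair_const]
    ring
  rw [sum_congr rfl hsplit, sum_sub_distrib, sum_neg_distrib, hsum]
  have h1 := incr_le hc hM S
  have h2 : |∑ j ∈ S, (c S - c (S.erase j) - c {j}) - ∑ j ∈ S, ∑ i ∈ S.erase j, μ j i| ≤
      164 * M * S.card := by
    rw [← sum_sub_distrib]
    refine (abs_sum_le_sum_abs _ _).trans ((sum_le_card_nsmul _ _ (164 * M)
      fun i hi => hin S i hi).trans (by rw [nsmul_eq_mul, mul_comm]))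
  have h3 := hxlow S
  have hs1 : (1 : ℝ) ≤ S.card := by exact_mod_cast hS
  have h4 : -(((S.card : ℝ) - 1) * (660 * M)) ≤ ((S.card : ℝ) - 1) * ∑ i ∈ S, x i := by
    have := mul_le_mul_of_nonneg_left h3 (show (0 : ℝ) ≤ (S.card : ℝ) - 1 by linarith)
    linarith
  have h5 := (abs_le.1 h2).1
  linarith

/-- The elementary inequality. -/
lemma elem_ineq {n k : ℝ} (hk : 2 ≤ k) (hn : 2 * k ≤ n) :
    82 * k + 660 * (k - 1) ≤ 2472 * (k * (n - k) / (n - 1) - 1) := by
  have h2 : 0 < n - 1 := by linarith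
  have e : k * (n - k) / (n - 1) - 1 = (k - 1) * (n - k - 1) / (n - 1) := by
    field_simp
    ring
  rw [e, mul_div_assoc', le_div_iff₀ h2]
  have h4 : n - 1 ≤ 3 * (n - k - 1) := by linarith
  have h5 : 82 * k + 660 * (k - 1) ≤ 824 * (k - 1) := by linarith
  calc (82 * k + 660 * (k - 1)) * (n - 1) ≤ 824 * (k - 1) * (3 * (n - k - 1)) := by
        apply mul_le_mul h5 h4 h2.le
        nlinarith
    _ = 2472 * ((k - 1) * (n - k - 1)) := by ring

/-- The coefficients of an effective representative. -/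
def uu (c : Finset V → ℝ) (G : V → V → ℝ) (S : Finset V) : ℝ :=
  c S + ∑ i ∈ S, ∑ j ∈ Sᶜ, G i j

theorem uu_lower {c : Finset V → ℝ} (hc : Sym c) (o : V) {a b : ℝ} (hab : a ≤ b)
    (hV : 4 ≤ Fintype.card V)
    (h : ∀ X Y Z : Finset V, X.Nonempty → Y.Nonempty → Z.Nonempty → Disjoint X Y →
      Disjoint X Z → Disjoint Y Z → o ∉ X → o ∉ Y → o ∉ Z → a ≤ T c X Y Z ∧ T c X Y Z ≤ b) :
    ∃ G : V → V → ℝ, (∀ i j, G i j = G j i) ∧
    (∀ S : Finset V, (a - 2472 * (b - a)) * kap S ≤ uu c G S) ∧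
    uu c G ∅ = 0 ∧ (∀ i : V, uu c G {i} = 0) ∧ ∀ S, uu c G Sᶜ = uu c G S := by
  have hc' : Sym (fun S : Finset V => c S - a * kap S) := sym_sub hc a
  have hbd := bd_of hc o hab h
  obtain ⟨G, hG1, hG2, hG3⟩ := gauge hc' hbd hV
  have hempty : uu c G ∅ = 0 := by
    unfold uu
    rw [sum_empty, add_zero, hc.1]
  have hsingle : ∀ i : V, uu c G {i} = 0 := fun i => by
    have h1 := hG2 i
    beta_reduce at h1
    rw [kap_single i (by omega), mul_zero, sub_zero] at h1
    unfold uu
    rw [sum_singleton]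
    have e : ({i} : Finset V)ᶜ = univ.erase i := by
      ext y
      simp
    rw [e]
    exact h1
  have hcompl : ∀ S, uu c G Sᶜ = uu c G S := fun S => by
    unfold uu
    rw [hc.2, compl_compl, sum_comm]
    congr 1
    exact sum_congr rfl fun i _ => sum_congr rfl fun j _ => hG1 j i
  refine ⟨G, hG1, ?_, hempty, hsingle, hcompl⟩
  have half : ∀ S : Finset V, 2 * S.card ≤ Fintype.card V →
      (a - 2472 * (b - a)) * kap S ≤ uu c G S := by
    intro S hS
    rcases Nat.lt_or_ge S.card 2 with h2 | h2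
    · rcases Nat.lt_or_ge S.card 1 with h1 | h1
      · have hS0 : S = ∅ := card_eq_zero.1 (by omega)
        rw [hS0, hempty, kap_sym.1, mul_zero]
      · obtain ⟨i, hi⟩ := card_eq_one.1 (show S.card = 1 by omega)
        rw [hi, hsingle, kap_single i (by omega), mul_zero]
    · have hne : S.Nonempty := card_pos.1 (by omega)
      have hnu : S ≠ univ := by
        intro h
        rw [h, card_univ] at hS
        omega
      have h3 := hG3 S (by omega)
      have h4 : (2 : ℝ) ≤ S.card := by exact_mod_cast h2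
      have h5 : 2 * (S.card : ℝ) ≤ Fintype.card V := by exact_mod_cast hS
      have h6 := elem_ineq h4 h5
      rw [← kap_of hne hnu] at h6
      have h7 : (b - a) * (82 * S.card + 660 * ((S.card : ℝ) - 1)) ≤ (b - a) * (2472 * kap S) :=
        mul_le_mul_of_nonneg_left h6 (by linarith)
      unfold uu
      beta_reduce at h3
      linarith
  intro S
  rcases Nat.lt_or_ge (Fintype.card V) (2 * S.card) with h1 | h1
  · have := half Sᶜ (by rw [card_compl]; omega)
    rwa [kap_sym.2, hcompl] at this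
  · exact half S h1

end Pool.Agent.N486.AF
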