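import Pool.Agent.N486.AF.Core

/-!
# Nearly additive set functions (Kalton and Roberts)

A function on the subsets of a finite set which is additive up to `M` is at distance at most `164 M`
from an additive function, for sets of all sizes.
-/

set_option autoImplicit false
set_option linter.unusedSectionVars false

namespace Pool.Agent.N486.AF

open Finset Filter Topology

variable {V : Type} [Fintype V] [DecidableEq V]

lemma Nearly.sub_add {h : Finset V → ℝ} {M : ℝ} (hh : Nearly h M) (μ : V → ℝ) :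
    Nearly (fun A => h A - ∑ i ∈ A, μ i) M := by
  intro A B hAB
  have := hh A B hAB
  simp only
  rw [sum_union hAB]
  convert this using 2
  ring

lemma Nearly.neg {h : Finset V → ℝ} {M : ℝ} (hh : Nearly h M) : Nearly (fun A => - h A) M := by
  intro A B hAB
  have := hh A B hAB
  rw [← abs_neg]
  convert this using 2
  ring

/-- The distance from an additive function. -/
noncomputable def dist' (h : Finset V → ℝ) (μ : V → ℝ) : ℝ :=
  (univ : Finset (Finset V)).sup' ⟨∅, mem_univ _⟩ fun A => |h A - ∑ i ∈ A, μ i|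

lemma le_dist' (h : Finset V → ℝ) (μ : V → ℝ) (A : Finset V) :
    |h A - ∑ i ∈ A, μ i| ≤ dist' h μ :=
  Finset.le_sup' (fun A => |h A - ∑ i ∈ A, μ i|) (mem_univ A)

lemma dist'_lt {h : Finset V → ℝ} {μ : V → ℝ} {N : ℝ} (H : ∀ A, |h A - ∑ i ∈ A, μ i| < N) :
    dist' h μ < N :=
  (Finset.sup'_lt_iff _).2 fun A _ => H A

lemma dist'_cont (h : Finset V → ℝ) : Continuous (dist' h) := by
  unfold dist'
  refine Continuous.finset_sup'_apply _ fun A _ => ?_
  fun_prop

/-- The best approximation. -/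
lemma exists_min (h : Finset V → ℝ) (hV : (univ : Finset V).Nonempty) :
    ∃ μ : V → ℝ, ∑ i, μ i = h univ ∧ ∀ μ' : V → ℝ, ∑ i, μ' i = h univ → dist' h μ ≤ dist' h μ' := by
  set n : ℝ := (Fintype.card V : ℝ) with hn
  have hn0 : n ≠ 0 := by
    rw [hn, Nat.cast_ne_zero, ← card_univ]
    exact (card_pos.2 hV).ne'
  let μ0 : V → ℝ := fun _ => h univ / n
  have hμ0 : ∑ i, μ0 i = h univ := by
    simp only [μ0, sum_const, card_univ, nsmul_eq_mul, ← hn]
    field_simp
  set B : ℝ := dist' h μ0 + ∑ A, |h A| with hB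
  let K : Set (V → ℝ) := (Set.univ.pi fun _ : V => Set.Icc (-B) B) ∩ {μ | ∑ i, μ i = h univ}
  have hmem : ∀ μ : V → ℝ, ∑ i, μ i = h univ → dist' h μ ≤ dist' h μ0 → μ ∈ K := by
    intro μ h1 h2
    refine ⟨fun i _ => ?_, h1⟩
    have h3 := le_dist' h μ {i}
    rw [sum_singleton] at h3
    have h4 : |h {i}| ≤ ∑ A, |h A| := single_le_sum (f := fun A => |h A|) (fun _ _ => abs_nonneg _)
      (mem_univ _)
    rw [Set.mem_Icc, ← abs_le]
    have h5 : |μ i| ≤ |h {i}| + |h {i} - μ i| := by
      have := abs_sub (h {i}) (h {i} - μ i)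
      rwa [sub_sub_cancel] at this
    linarith
  have hK : IsCompact K := by
    refine (isCompact_univ_pi fun _ => isCompact_Icc).inter_right ?_
    exact isClosed_eq (by fun_prop) continuous_const
  obtain ⟨μ, hμ, hmin⟩ := hK.exists_isMinOn ⟨μ0, hmem μ0 hμ0 le_rfl⟩ (dist'_cont h).continuousOn
  refine ⟨μ, hμ.2, fun μ' h1 => ?_⟩
  rcases le_or_gt (dist' h μ') (dist' h μ0) with h2 | h2
  · exact hmin (hmem μ' h1 h2)
  · exact (hmin (hmem μ0 hμ0 le_rfl)).trans h2.le

/-- **The theorem of Kalton and Roberts.** -/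
theorem kalton_roberts {h : Finset V → ℝ} {M : ℝ} (hh : Nearly h M) :
    ∃ μ : V → ℝ, ∀ A, |h A - ∑ i ∈ A, μ i| ≤ 164 * M := by
  classical
  have hM := hh.nonneg
  rcases (univ : Finset V).eq_empty_or_nonempty with hV | hV
  · refine ⟨fun _ => 0, fun A => ?_⟩
    have hA : A = ∅ := subset_empty.1 (by rw [← hV]; exact subset_univ A)
    rw [hA, sum_empty, sub_zero]
    have := hh.empty
    linarith
  obtain ⟨μ, hμ, hmin⟩ := exists_min h hV
  set N := dist' h μ with hN
  refine ⟨μ, fun A => (le_dist' h μ A).trans ?_⟩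
  rw [← hN]
  set φ : Finset V → ℝ := fun A => h A - ∑ i ∈ A, μ i with hφ
  have hφN : ∀ A, |φ A| ≤ N := fun A => le_dist' h μ A
  have hφM : Nearly φ M := hh.sub_add μ
  have hφu : φ univ = 0 := by rw [hφ]; simp only; rw [hμ, sub_self]
  rcases le_or_gt N 0 with hN0 | hN0
  · linarith
  set n : ℝ := (Fintype.card V : ℝ) with hn
  have hn0 : n ≠ 0 := by
    rw [hn, Nat.cast_ne_zero, ← card_univ]
    exact (card_pos.2 hV).ne'
  let 𝓕 : Finset (Finset V) := univ.filter fun A => φ A = N ∨ φ Aᶜ = -N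
  let v : Finset V → V → ℝ := fun A i => (if i ∈ A then 1 else 0) - A.card / n
  let s : Finset (V → ℝ) := 𝓕.image v
  have hconv : (0 : V → ℝ) ∈ convexHull ℝ (s : Set (V → ℝ)) := by
    by_contra hcon
    obtain ⟨f, u, hu, hf⟩ := geometric_hahn_banach_point_closed
      (convex_convexHull ℝ (s : Set (V → ℝ))) (s.finite_toSet.isCompact_convexHull ℝ).isClosed hcon
    rw [map_zero] at hu
    let e : V → ℝ := fun i => f (Pi.single i 1)
    let ν : V → ℝ := fun i => e i - (∑ j, e j) / n
    have hfe : ∀ x : V → ℝ, f x = ∑ i, x i * e i := by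
      intro x
      have : x = ∑ i, x i • (Pi.single i 1 : V → ℝ) := by
        ext j
        simp [Finset.sum_apply, Pi.single_apply]
      conv_lhs => rw [this]
      rw [map_sum]
      refine sum_congr rfl fun i _ => ?_
      rw [map_smul, smul_eq_mul]
    have hfv : ∀ A, f (v A) = ∑ i ∈ A, ν i := by
      intro A
      rw [hfe]
      simp only [v, ν, sub_mul, sum_sub_distrib, ite_mul, one_mul, zero_mul, sum_const,
        nsmul_eq_mul, ← mul_sum]
      rw [← sum_filter, filter_mem_eq_inter, univ_inter]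
      ring
    have hν0 : ∑ i, ν i = 0 := by
      simp only [ν, sum_sub_distrib, sum_const, card_univ, nsmul_eq_mul, ← hn]
      field_simp
      ring
    have hpos : ∀ A ∈ 𝓕, 0 < ∑ i ∈ A, ν i := by
      intro A hA
      rw [← hfv]
      exact hu.trans (hf _ (subset_convexHull ℝ _ (mem_coe.2 (mem_image_of_mem v hA))))
    have hcompl : ∀ A : Finset V, ∑ i ∈ Aᶜ, ν i = - ∑ i ∈ A, ν i := by
      intro A
      have := sum_add_sum_compl A ν
      rw [hν0] at this
      linarith
    have hev : ∀ᶠ ε : ℝ in 𝓝[>] 0, ∀ A : Finset V, |φ A - ε * ∑ i ∈ A, ν i| < N := by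
      rw [eventually_all]
      intro A
      have ht : Tendsto (fun ε : ℝ => φ A - ε * ∑ i ∈ A, ν i) (𝓝[>] 0) (𝓝 (φ A)) := by
        have hc : Continuous fun ε : ℝ => φ A - ε * ∑ i ∈ A, ν i := by fun_prop
        have := hc.tendsto 0
        rw [zero_mul, sub_zero] at this
        exact this.mono_left nhdsWithin_le_nhds
      have hA := abs_le.1 (hφN A)
      have hpos' : ∀ᶠ ε : ℝ in 𝓝[>] 0, 0 < ε := self_mem_nhdsWithin
      by_cases h1 : φ A = N
      · have h2 := hpos A (mem_filter.2 ⟨mem_univ _, Or.inl h1⟩)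
        have h3 := ht.eventually (lt_mem_nhds (show -N < φ A by rw [h1]; linarith))
        filter_upwards [h3, hpos'] with ε h3 h4
        rw [abs_lt]
        refine ⟨h3, ?_⟩
        have := mul_pos h4 h2
        linarith
      · by_cases h1' : φ A = -N
        · have h2 := hpos Aᶜ (mem_filter.2 ⟨mem_univ _, Or.inr (by rw [compl_compl]; exact h1')⟩)
          rw [hcompl] at h2
          have h3 := ht.eventually (gt_mem_nhds (show φ A < N by rw [h1']; linarith))
          filter_upwards [h3, hpos'] with ε h3 h4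
          rw [abs_lt]
          refine ⟨?_, h3⟩
          have := mul_pos h4 h2
          linarith
        · have h2 : φ A < N := lt_of_le_of_ne hA.2 h1
          have h3 : -N < φ A := lt_of_le_of_ne hA.1 (Ne.symm h1')
          filter_upwards [ht.eventually (lt_mem_nhds h3), ht.eventually (gt_mem_nhds h2)] with ε h4 h5
          rw [abs_lt]
          exact ⟨h4, h5⟩
    obtain ⟨ε, hε⟩ := hev.exists
    have h1 := hmin (fun i => μ i + ε * ν i) (by
      rw [sum_add_distrib, ← mul_sum, hν0, mul_zero, add_zero, hμ])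
    refine absurd h1 (not_le.2 (dist'_lt fun A => ?_))
    have h2 := hε A
    have h3 : h A - ∑ i ∈ A, (μ i + ε * ν i) = φ A - ε * ∑ i ∈ A, ν i := by
      rw [sum_add_distrib, ← mul_sum, hφ]
      ring
    rw [h3]
    exact h2
  obtain ⟨w, hw0, hw1, hw2⟩ := (Finset.mem_convexHull').1 hconv
  have hch : ∀ y : {y // y ∈ s}, ∃ A ∈ 𝓕, v A = y := fun y => by
    have := y.2
    simp only [s, mem_image] at this
    exact this
  choose A hA hvA using hch
  have hW1 : ∑ y : {y // y ∈ s}, w y = 1 := by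
    rw [← hw1, ← sum_attach s]
    rfl
  set ρ : ℝ := ∑ y : {y // y ∈ s}, w y * ((A y).card / n) with hρ
  have hcov : ∀ x : V, ∑ y ∈ univ.filter (fun y : {y // y ∈ s} => x ∈ A y), w y = ρ := by
    intro x
    have h1 : ∑ y : {y // y ∈ s}, w y * v (A y) x = 0 := by
      have h2 := congrFun hw2 x
      rw [Finset.sum_apply, ← sum_attach s] at h2
      simp only [Pi.smul_apply, smul_eq_mul, Pi.zero_apply] at h2
      rw [← h2]
      refine sum_congr rfl fun y _ => ?_
      rw [hvA]
    simp only [v, mul_sub, sum_sub_distrib, mul_ite, mul_one, mul_zero] at h1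
    rw [← sum_filter] at h1
    rw [hρ]
    linarith
  have hlo : ∀ y, N - M ≤ φ (A y) ∧ N - M ≤ -φ (A y)ᶜ := by
    intro y
    have h1 := hφM (A y) (A y)ᶜ disjoint_compl_right
    rw [union_compl, hφu, abs_le] at h1
    rcases (mem_filter.1 (hA y)).2 with h2 | h2
    · rw [h2] at h1 ⊢
      constructor <;> linarith [h1.1, h1.2]
    · rw [h2] at h1 ⊢
      constructor <;> linarith [h1.1, h1.2]
  rcases le_or_gt ρ (1 / 2) with h1 | h1
  · exact core hφM (fun A => (abs_le.1 (hφN A)).2) (fun y : {y // y ∈ s} => w y)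
      (fun y => hw0 y y.2) hW1 A (fun x => by rw [hcov x]; exact h1) fun y => (hlo y).1
  · refine core hφM.neg (fun A => by linarith [(abs_le.1 (hφN A)).1])
      (fun y : {y // y ∈ s} => w y) (fun y => hw0 y y.2) hW1 (fun y => (A y)ᶜ) (fun x => ?_)
      fun y => (hlo y).2
    have h2 := sum_filter_add_sum_filter_not (univ : Finset {y // y ∈ s}) (fun y => x ∈ A y)
      (fun y => w y)
    rw [hcov x, hW1] at h2
    simp only [mem_compl]
    linarith

end Pool.Agent.N486.AF
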